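import Mathlib
import Pool.Agent.U707.LI.Stm

set_option autoImplicit false

/-!
Project LI, package TRANS (helper187): finitely many translates suffice.
-/

open Module

namespace Pool.Agent.U187.LI

/-- the linear form `A ↦ ∑ c_i trace(a_i A_i)` -/
noncomputable def form {E ι : Type} [Field E] [Fintype ι] (V : ι → Type)
    [∀ i, AddCommGroup (V i)] [∀ i, Module E (V i)] (c : ι → E) (a : ∀ i, Module.End E (V i)) :
    (∀ i, Module.End E (V i)) →ₗ[E] E :=
  ∑ i, c i • ((LinearMap.trace E (V i)) ∘ₗ (LinearMap.mulLeft E (a i)) ∘ₗ (LinearMap.proj i))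

theorem form_apply {E ι : Type} [Field E] [Fintype ι] (V : ι → Type)
    [∀ i, AddCommGroup (V i)] [∀ i, Module E (V i)] (c : ι → E) (a A : ∀ i, Module.End E (V i)) :
    form V c a A = ∑ i, c i * LinearMap.trace E (V i) (a i * A i) := by
  simp [form, LinearMap.sum_apply]

/-- **TRANS.** Finitely many translates suffice. -/
theorem t_TRANS : Pool.Agent.U707.LI.S_TRANS := by
  intro G E _ _ ι _ V _ _ _ ρ c
  classical
  refine ⟨finrank E (∀ i, Module.End E (V i)), fun x U => ?_⟩
  obtain ⟨F, hF⟩ : ∃ F : G → ∀ i, Module.End E (V i), ∀ y i, F y i = ρ i (y * x) :=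
    ⟨fun y i => ρ i (y * x), fun _ _ => rfl⟩
  obtain ⟨b, hbS, hspan, hli⟩ := exists_linearIndependent E (F '' (U : Set G))
  have hfin : b.Finite := hli.setFinite
  have : Fintype b := hfin.fintype
  have hcard : Fintype.card b ≤ finrank E (∀ i, Module.End E (V i)) :=
    hli.fintype_card_le_finrank
  have hch : ∀ z : b, ∃ y : G, y ∈ U ∧ F y = z := fun z => by
    obtain ⟨y, hy, h⟩ := hbS z.2
    exact ⟨y, hy, h⟩
  choose Y hYU hYF using hch
  let e := Fintype.equivFin b
  refine ⟨fun j => if hj : (j : ℕ) < Fintype.card b then Y (e.symm ⟨j, hj⟩) else 1, fun j => ?_, ?_⟩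
  · dsimp only
    split_ifs with hj
    · exact hYU _
    · exact U.one_mem
  · intro u hu y hy
    have hexp : ∀ y : G, ∑ i, c i * LinearMap.trace E (V i) (ρ i (u * y * x)) =
        form V c (fun i => ρ i u) (F y) := by
      intro y
      rw [form_apply]
      refine Finset.sum_congr rfl fun i _ => ?_
      rw [hF, ← map_mul, mul_assoc]
    rw [hexp]
    have hker : Submodule.span E (F '' (U : Set G)) ≤ LinearMap.ker (form V c (fun i => ρ i u)) := by
      rw [← hspan, Submodule.span_le]
      intro z hz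
      rw [SetLike.mem_coe, LinearMap.mem_ker]
      have h1 := hu ⟨e ⟨z, hz⟩, lt_of_lt_of_le (e ⟨z, hz⟩).2 hcard⟩
      dsimp only at h1
      rw [dif_pos (e ⟨z, hz⟩).2, hexp, hYF] at h1
      simpa using h1
    exact LinearMap.mem_ker.1 (hker (Submodule.subset_span ⟨y, hy, rfl⟩))

end Pool.Agent.U187.LI
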